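import Pool.Agent.Helper74.CW.Defs

/-!
# Singular matrices in the kernel of the multiplication map
-/

namespace Pool.Agent.Helper74.CW

open Module Polynomial

section Aux

/-- proportionality from vanishing minors -/
private lemma sing_par {L : Type*} [Field L] {p v : Fin 3 → L} (hp : p ≠ 0)
    (h01 : v 0 * p 1 = v 1 * p 0) (h12 : v 1 * p 2 = v 2 * p 1) (h02 : v 0 * p 2 = v 2 * p 0) :
    ∃ l : L, ∀ i, v i = l * p i := by
  by_cases h0 : p 0 = 0
  · by_cases h1 : p 1 = 0
    · have h2 : p 2 ≠ 0 := by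
        intro h2
        apply hp
        funext i
        fin_cases i <;> simp [h0, h1, h2]
      refine ⟨v 2 / p 2, ?_⟩
      intro i
      fin_cases i
      · show v 0 = v 2 / p 2 * p 0
        field_simp
        linear_combination h02
      · show v 1 = v 2 / p 2 * p 1
        field_simp
        linear_combination h12
      · show v 2 = v 2 / p 2 * p 2
        field_simp
    · refine ⟨v 1 / p 1, ?_⟩
      intro i
      fin_cases i
      · show v 0 = v 1 / p 1 * p 0
        field_simp
        linear_combination h01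
      · show v 1 = v 1 / p 1 * p 1
        field_simp
      · show v 2 = v 1 / p 1 * p 2
        field_simp
        linear_combination -h12
  · refine ⟨v 0 / p 0, ?_⟩
    intro i
    fin_cases i
    · show v 0 = v 0 / p 0 * p 0
      field_simp
    · show v 1 = v 0 / p 0 * p 1
      field_simp
      linear_combination -h01
    · show v 2 = v 0 / p 0 * p 2
      field_simp
      linear_combination -h02

/-- a vector orthogonal to `a` and `b` is proportional to `a × b` -/
private lemma sing_orth {L : Type*} [Field L] {a b v : Fin 3 → L}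
    (hp : ![a 1 * b 2 - a 2 * b 1, a 2 * b 0 - a 0 * b 2, a 0 * b 1 - a 1 * b 0] ≠ 0)
    (ha : v 0 * a 0 + v 1 * a 1 + v 2 * a 2 = 0) (hb : v 0 * b 0 + v 1 * b 1 + v 2 * b 2 = 0) :
    ∃ l : L, ∀ i, v i = l *
      (![a 1 * b 2 - a 2 * b 1, a 2 * b 0 - a 0 * b 2, a 0 * b 1 - a 1 * b 0] : Fin 3 → L) i := by
  apply sing_par hp
  · show v 0 * (a 2 * b 0 - a 0 * b 2) = v 1 * (a 1 * b 2 - a 2 * b 1)
    linear_combination a 2 * hb - b 2 * ha
  · show v 1 * (a 0 * b 1 - a 1 * b 0) = v 2 * (a 2 * b 0 - a 0 * b 2)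
    linear_combination a 0 * hb - b 0 * ha
  · show v 0 * (a 0 * b 1 - a 1 * b 0) = v 2 * (a 1 * b 2 - a 2 * b 1)
    linear_combination b 1 * ha - a 1 * hb

end Aux

variable {F K : Type*} [Field F] [Field K] [Algebra F K]

/-- the cross product of `c` and `t` -/
private def cr (c : Fin 3 → F) (t : Fin 3 → K) : Fin 3 → K :=
  ![c 1 • t 2 - c 2 • t 1, c 2 • t 0 - c 0 • t 2, c 0 • t 1 - c 1 • t 0]

private lemma indep3 {t : Fin 3 → K} (ht : LinearIndependent F t) {a b c : F}
    (h : a • t 0 + b • t 1 + c • t 2 = 0) : a = 0 ∧ b = 0 ∧ c = 0 := by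
  rw [Fintype.linearIndependent_iff] at ht
  have := ht ![a, b, c] (by simpa [Fin.sum_univ_three] using h)
  exact ⟨this 0, this 1, this 2⟩

private lemma cr_ne {t : Fin 3 → K} (ht : LinearIndependent F t) {c : Fin 3 → F} (hc : c ≠ 0) :
    cr c t ≠ 0 := by
  intro h
  apply hc
  have h0 : cr c t 0 = 0 := by rw [h]; rfl
  have h1 : cr c t 1 = 0 := by rw [h]; rfl
  change c 1 • t 2 - c 2 • t 1 = 0 at h0
  change c 2 • t 0 - c 0 • t 2 = 0 at h1
  have e0 := indep3 ht (a := 0) (b := - c 2) (c := c 1) (by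
    rw [zero_smul, neg_smul]
    linear_combination h0)
  have e1 := indep3 ht (a := c 2) (b := 0) (c := - c 0) (by
    rw [zero_smul, neg_smul]
    linear_combination h1)
  funext i
  fin_cases i
  · simpa using e1.2.2
  · simpa using e0.2.2
  · simpa using e1.1

private lemma mem_NN {t s : Fin 3 → K} {X : Matrix (Fin 3) (Fin 3) F} :
    X ∈ NN F t s ↔ t 0 * (X 0 0 • s 0 + X 0 1 • s 1 + X 0 2 • s 2) +
      t 1 * (X 1 0 • s 0 + X 1 1 • s 1 + X 1 2 • s 2) +
      t 2 * (X 2 0 • s 0 + X 2 1 • s 1 + X 2 2 • s 2) = 0 := by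
  change ∑ i, ∑ j, X i j • (t i * s j) = 0 ↔ _
  simp only [Fin.sum_univ_three, Algebra.smul_def]
  constructor
  · intro h
    linear_combination h
  · intro h
    linear_combination h

/-- the left kernel of a nonzero element of `NN` has at most one direction -/
private lemma ker_one {t s : Fin 3 → K} (ht : LinearIndependent F t) (hs : LinearIndependent F s)
    {X : Matrix (Fin 3) (Fin 3) F} (hX : X ∈ NN F t s) (hX0 : X ≠ 0) {a b : Fin 3 → F}
    (ha : ∀ j, X 0 j * a 0 + X 1 j * a 1 + X 2 j * a 2 = 0)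
    (hb : ∀ j, X 0 j * b 0 + X 1 j * b 1 + X 2 j * b 2 = 0) :
    ![a 1 * b 2 - a 2 * b 1, a 2 * b 0 - a 0 * b 2, a 0 * b 1 - a 1 * b 0] = 0 := by
  by_contra hp
  set p : Fin 3 → F := ![a 1 * b 2 - a 2 * b 1, a 2 * b 0 - a 0 * b 2, a 0 * b 1 - a 1 * b 0]
    with hpdef
  have hl : ∀ j, ∃ l : F, ∀ i, X i j = l * p i := by
    intro j
    exact sing_orth (v := fun i => X i j) hp (ha j) (hb j)
  choose l hl using hl
  rw [mem_NN] at hX
  simp only [hl, Algebra.smul_def, map_mul] at hX
  have hprod : (algebraMap F K (p 0) * t 0 + algebraMap F K (p 1) * t 1 +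
      algebraMap F K (p 2) * t 2) * (algebraMap F K (l 0) * s 0 + algebraMap F K (l 1) * s 1 +
      algebraMap F K (l 2) * s 2) = 0 := by
    linear_combination hX
  rcases mul_eq_zero.1 hprod with h | h
  · simp only [← Algebra.smul_def] at h
    obtain ⟨h0, h1, h2⟩ := indep3 ht h
    apply hp
    funext i
    fin_cases i
    · exact h0
    · exact h1
    · exact h2
  · simp only [← Algebra.smul_def] at h
    obtain ⟨h0, h1, h2⟩ := indep3 hs h
    apply hX0
    funext i j
    rw [hl j i]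
    fin_cases j
    · show l 0 * p i = 0
      rw [h0, zero_mul]
    · show l 1 * p i = 0
      rw [h1, zero_mul]
    · show l 2 * p i = 0
      rw [h2, zero_mul]

/-- number of nonzero elements of a submodule -/
private lemma card_nonzero {V : Type*} [AddCommGroup V] [Module F V] [Finite F]
    [FiniteDimensional F V] (W : Submodule F V) :
    Nat.card {c : V // c ≠ 0 ∧ c ∈ W} = Nat.card F ^ finrank F W - 1 := by
  have : Finite V := Module.finite_of_finite F
  have h1 : Nat.card W = Nat.card F ^ finrank F W := Module.natCard_eq_pow_finrank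
  have h2 : {c : V | c ≠ 0 ∧ c ∈ W} = (W : Set V) \ {0} := by
    ext c
    simp [and_comm]
  have h3 : Nat.card {c : V // c ≠ 0 ∧ c ∈ W} = {c : V | c ≠ 0 ∧ c ∈ W}.ncard := rfl
  rw [h3, h2, Set.ncard_sdiff_singleton_of_mem W.zero_mem, ← h1]
  rfl

private lemma card_left [Finite F] {t s : Fin 3 → K} (ht : LinearIndependent F t)
    (hs : LinearIndependent F s)
    {X : Matrix (Fin 3) (Fin 3) F} (hX : X ∈ NN F t s) (hX0 : X ≠ 0) (hd : X.det = 0) :
    Nat.card {c : Fin 3 → F // c ≠ 0 ∧ Matrix.vecMul c X = 0} = Nat.card F - 1 := by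
  obtain ⟨c0, hc0, hc0X⟩ := (Matrix.exists_vecMul_eq_zero_iff).2 hd
  have key : ∀ c : Fin 3 → F, Matrix.vecMul c X = 0 →
      ∀ j, X 0 j * c 0 + X 1 j * c 1 + X 2 j * c 2 = 0 := by
    intro c hc j
    have := congrFun hc j
    simp only [Matrix.vecMul, dotProduct, Fin.sum_univ_three, Pi.zero_apply] at this
    linear_combination this
  have e : ∀ c : Fin 3 → F, (c ≠ 0 ∧ Matrix.vecMul c X = 0) ↔
      (c ≠ 0 ∧ c ∈ Submodule.span F {c0}) := by
    intro c
    refine and_congr_right fun _ => ?_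
    constructor
    · intro h
      have h1 := ker_one ht hs hX hX0 (key c h) (key c0 hc0X)
      have g0 := congrFun h1 0
      have g1 := congrFun h1 1
      have g2 := congrFun h1 2
      change c 1 * c0 2 - c 2 * c0 1 = 0 at g0
      change c 2 * c0 0 - c 0 * c0 2 = 0 at g1
      change c 0 * c0 1 - c 1 * c0 0 = 0 at g2
      obtain ⟨l, hl⟩ := sing_par (p := c0) (v := c) hc0 (by linear_combination g2)
        (by linear_combination g0) (by linear_combination -g1)
      rw [Submodule.mem_span_singleton]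
      exact ⟨l, by funext i; rw [hl i]; rfl⟩
    · intro h
      obtain ⟨l, rfl⟩ := Submodule.mem_span_singleton.1 h
      rw [Matrix.smul_vecMul, hc0X, smul_zero]
  rw [Nat.card_congr (Equiv.subtypeEquivRight e), card_nonzero, finrank_span_singleton hc0, pow_one]

/-- the two descriptions of the incidences -/
private lemma exists_xi {t s : Fin 3 → K} (ht : LinearIndependent F t)
    (hs : LinearIndependent F s)
    {X : Matrix (Fin 3) (Fin 3) F} (hX : X ∈ NN F t s) (hX0 : X ≠ 0) {c : Fin 3 → F} (hc : c ≠ 0)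
    (hcX : Matrix.vecMul c X = 0) :
    ∃ ξ : K, ξ ≠ 0 ∧ ∀ i, X i 0 • s 0 + X i 1 • s 1 + X i 2 • s 2 = ξ * cr c t i := by
  have key : ∀ j, X 0 j * c 0 + X 1 j * c 1 + X 2 j * c 2 = 0 := by
    intro j
    have := congrFun hcX j
    simp only [Matrix.vecMul, dotProduct, Fin.sum_univ_three, Pi.zero_apply] at this
    linear_combination this
  have hcr : cr c t = ![algebraMap F K (c 1) * t 2 - algebraMap F K (c 2) * t 1,
      algebraMap F K (c 2) * t 0 - algebraMap F K (c 0) * t 2,
      algebraMap F K (c 0) * t 1 - algebraMap F K (c 1) * t 0] := by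
    simp only [cr, Algebra.smul_def]
  have hne := cr_ne ht hc
  rw [hcr] at hne
  rw [mem_NN] at hX
  have k0 := congrArg (algebraMap F K) (key 0)
  have k1 := congrArg (algebraMap F K) (key 1)
  have k2 := congrArg (algebraMap F K) (key 2)
  simp only [map_add, map_mul, map_zero] at k0 k1 k2
  obtain ⟨ξ, hξ⟩ := sing_orth (a := fun i => algebraMap F K (c i)) (b := t)
    (v := fun i => X i 0 • s 0 + X i 1 • s 1 + X i 2 • s 2) hne (by
      simp only [Algebra.smul_def]
      linear_combination s 0 * k0 + s 1 * k1 + s 2 * k2) (by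
      linear_combination hX)
  refine ⟨ξ, ?_, ?_⟩
  · rintro rfl
    apply hX0
    funext i j
    have h := hξ i
    rw [zero_mul] at h
    obtain ⟨h0, h1, h2⟩ := indep3 hs h
    fin_cases j
    · exact h0
    · exact h1
    · exact h2
  · intro i
    rw [hcr]
    exact hξ i

/-- the submodule of the admissible `c` -/
private def Cx (t : Fin 3 → K) (S : Submodule F K) (ξ : K) : Submodule F (Fin 3 → F) where
  carrier := {c | ∀ i, ξ * cr c t i ∈ S}
  add_mem' := by
    intro a b ha hb i
    have h : ξ * cr (a + b) t i = ξ * cr a t i + ξ * cr b t i := by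
      fin_cases i <;> simp [cr, Algebra.smul_def] <;> ring
    rw [h]
    exact S.add_mem (ha i) (hb i)
  zero_mem' := by
    intro i
    have h : ξ * cr (0 : Fin 3 → F) t i = 0 := by
      fin_cases i <;> simp [cr]
    rw [h]
    exact S.zero_mem
  smul_mem' := by
    intro l a ha i
    have h : ξ * cr (l • a) t i = l • (ξ * cr a t i) := by
      fin_cases i <;> simp [cr, Algebra.smul_def] <;> ring
    rw [h]
    exact S.smul_mem l (ha i)

private lemma mem_Cx {t : Fin 3 → K} {S : Submodule F K} {ξ : K} {c : Fin 3 → F} :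
    c ∈ Cx t S ξ ↔ ∀ i, ξ * cr c t i ∈ S := Iff.rfl

/-- the linear map `p ↦ ξ (p · t)` -/
private def Lx (t : Fin 3 → K) (ξ : K) : (Fin 3 → F) →ₗ[F] K :=
  (LinearMap.mulLeft F ξ).comp (Fintype.linearCombination F t)

private lemma Lx_apply (t : Fin 3 → K) (ξ : K) (p : Fin 3 → F) :
    Lx t ξ p = ξ * (p 0 • t 0 + p 1 • t 1 + p 2 • t 2) := by
  simp [Lx, Fintype.linearCombination_apply, Fin.sum_univ_three]

private lemma finrank_W {t : Fin 3 → K} (ht : LinearIndependent F t) (S : Submodule F K) {ξ : K}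
    (hξ : ξ ≠ 0) :
    finrank F ↥(S.comap (Lx t ξ)) = finrank F ↥(S ⊓ sc ξ (Submodule.span F (Set.range t))) := by
  have hinj : Function.Injective (Lx (F := F) t ξ) := by
    rw [← LinearMap.ker_eq_bot, LinearMap.ker_eq_bot']
    intro p hp
    rw [Lx_apply] at hp
    obtain ⟨h0, h1, h2⟩ := indep3 ht ((mul_eq_zero.1 hp).resolve_left hξ)
    funext i
    fin_cases i
    · exact h0
    · exact h1
    · exact h2
  have h1 : (S.comap (Lx t ξ)).map (Lx t ξ) = S ⊓ sc ξ (Submodule.span F (Set.range t)) := by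
    rw [Submodule.map_comap_eq, inf_comm]
    congr 1
    rw [Lx, LinearMap.range_comp, Fintype.range_linearCombination]
    rfl
  rw [← h1]
  exact (Submodule.equivMapOfInjective _ hinj _).finrank_eq

private lemma Cx_rows {t : Fin 3 → K} {S : Submodule F K} {ξ : K} {c : Fin 3 → F} :
    c ∈ Cx t S ξ ↔ (![0, - c 2, c 1] : Fin 3 → F) ∈ S.comap (Lx t ξ) ∧
      (![c 2, 0, - c 0] : Fin 3 → F) ∈ S.comap (Lx t ξ) ∧
      (![- c 1, c 0, 0] : Fin 3 → F) ∈ S.comap (Lx t ξ) := by
  rw [mem_Cx]
  simp only [Submodule.mem_comap, Lx_apply, Fin.forall_fin_succ, cr]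
  simp
  refine and_congr ?_ (and_congr ?_ ?_)
  · rw [show -(c 2 • t 1) + c 1 • t 2 = c 1 • t 2 - c 2 • t 1 by ring]
  · rw [show c 2 • t 0 + -(c 0 • t 2) = c 2 • t 0 - c 0 • t 2 by ring]
  · rw [show -(c 1 • t 0) + c 0 • t 1 = c 0 • t 1 - c 1 • t 0 by ring]

private lemma finrank_Cx {t : Fin 3 → K} (ht : LinearIndependent F t) (S : Submodule F K) {ξ : K}
    (hξ : ξ ≠ 0) :
    finrank F (Cx t S ξ) =
      if finrank F ↥(S ⊓ sc ξ (Submodule.span F (Set.range t))) = 2 then 1 else
      if finrank F ↥(S ⊓ sc ξ (Submodule.span F (Set.range t))) = 3 then 3 else 0 := by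
  rw [← finrank_W ht S hξ]
  have hle : finrank F ↥(S.comap (Lx t ξ)) ≤ 3 := by
    have := Submodule.finrank_le (S.comap (Lx (F := F) t ξ))
    simpa using this
  split_ifs with h2 h3
  · -- dimension 2
    have hlt : S.comap (Lx (F := F) t ξ) < ⊤ := by
      rw [lt_top_iff_ne_top]
      intro h
      rw [h] at h2
      simp at h2
    obtain ⟨f, hf0, hf⟩ := Submodule.exists_le_ker_of_lt_top _ hlt
    have hk : finrank F (LinearMap.ker f) = 2 := by
      have := LinearMap.finrank_range_add_finrank_ker f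
      have hs : LinearMap.range f = ⊤ := LinearMap.range_eq_top.2 (LinearMap.surjective hf0)
      rw [hs] at this
      simp at this
      omega
    have hW : S.comap (Lx (F := F) t ξ) = LinearMap.ker f :=
      Submodule.eq_of_le_of_finrank_eq hf (by rw [h2, hk])
    set n : Fin 3 → F := fun i => f (Pi.single i 1) with hn
    have hfn : ∀ p : Fin 3 → F, f p = p 0 * n 0 + p 1 * n 1 + p 2 * n 2 := by
      intro p
      have hp : p = p 0 • Pi.single 0 1 + p 1 • Pi.single 1 1 + p 2 • Pi.single 2 1 := by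
        funext i
        fin_cases i <;> simp
      conv_lhs => rw [hp]
      simp only [map_add, map_smul, smul_eq_mul, hn]
    have hn0 : n ≠ 0 := by
      intro h
      apply hf0
      ext i
      simp only [LinearMap.coe_comp, LinearMap.coe_single, Function.comp_apply,
        LinearMap.zero_apply]
      exact congrFun h i
    have hC : Cx t S ξ = Submodule.span F {n} := by
      ext c
      rw [Cx_rows, hW]
      simp only [LinearMap.mem_ker, hfn]
      rw [Submodule.mem_span_singleton]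
      simp
      constructor
      · rintro ⟨h0, h1, h2⟩
        obtain ⟨l, hl⟩ := sing_par (p := n) (v := c) hn0 (by linear_combination h2)
          (by linear_combination h0) (by linear_combination -h1)
        exact ⟨l, by funext i; rw [hl i]; rfl⟩
      · rintro ⟨l, rfl⟩
        simp only [Pi.smul_apply, smul_eq_mul]
        refine ⟨by ring, by ring, by ring⟩
    rw [hC, finrank_span_singleton hn0]
  · have htop : S.comap (Lx (F := F) t ξ) = ⊤ := by
      apply Submodule.eq_top_of_finrank_eq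
      rw [h3]
      simp
    have hC : Cx t S ξ = ⊤ := by
      rw [eq_top_iff]
      intro c _
      rw [Cx_rows, htop]
      exact ⟨trivial, trivial, trivial⟩
    rw [hC]
    simp
  · have h1 : finrank F ↥(S.comap (Lx t ξ)) ≤ 1 := by omega
    obtain ⟨v, hv⟩ := finrank_le_one_iff.1 h1
    have hC : Cx t S ξ = ⊥ := by
      rw [eq_bot_iff]
      intro c hc
      rw [Cx_rows] at hc
      obtain ⟨h0, h1, h2⟩ := hc
      obtain ⟨l0, e0⟩ := hv ⟨_, h0⟩
      obtain ⟨l1, e1⟩ := hv ⟨_, h1⟩
      obtain ⟨l2, e2⟩ := hv ⟨_, h2⟩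
      have e0' := congrArg Subtype.val e0
      have e1' := congrArg Subtype.val e1
      have e2' := congrArg Subtype.val e2
      obtain ⟨v, hvm⟩ := v
      have a00 := congrFun e0' 0
      have a01 := congrFun e0' 1
      have a02 := congrFun e0' 2
      have a10 := congrFun e1' 0
      have a11 := congrFun e1' 1
      have a12 := congrFun e1' 2
      have a20 := congrFun e2' 0
      have a21 := congrFun e2' 1
      have a22 := congrFun e2' 2
      change l0 * v 0 = 0 at a00
      change l0 * v 1 = - c 2 at a01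
      change l0 * v 2 = c 1 at a02
      change l1 * v 0 = c 2 at a10
      change l1 * v 1 = 0 at a11
      change l1 * v 2 = - c 0 at a12
      change l2 * v 0 = - c 1 at a20
      change l2 * v 1 = c 0 at a21
      change l2 * v 2 = 0 at a22
      have z2 : c 2 * c 2 = 0 := by
        linear_combination (c 2) * a01 + (l0 * v 1) * a10 - (l0 * v 0) * a11
      have z0 : c 0 * c 0 = 0 := by
        linear_combination (c 0) * a12 + (l1 * v 2) * a21 - (l1 * v 1) * a22
      have z1 : c 1 * c 1 = 0 := by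
        linear_combination (c 1) * a20 + (l2 * v 0) * a02 - (l0 * v 0) * a22
      rw [Submodule.mem_bot]
      funext i
      fin_cases i
      · exact mul_self_eq_zero.1 z0
      · exact mul_self_eq_zero.1 z1
      · exact mul_self_eq_zero.1 z2
    rw [hC]
    simp

/-- from the pair `(ξ, c)` to the matrix -/
private lemma exists_X {t s : Fin 3 → K} (ht : LinearIndependent F t)
    (hs : LinearIndependent F s) {ξ : K} (hξ : ξ ≠ 0) {c : Fin 3 → F} (hc : c ≠ 0)
    (h : c ∈ Cx t (Submodule.span F (Set.range s)) ξ) :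
    ∃ X : Matrix (Fin 3) (Fin 3) F, (X ∈ NN F t s ∧ X ≠ 0 ∧ X.det = 0) ∧ Matrix.vecMul c X = 0 ∧
      ∀ i, X i 0 • s 0 + X i 1 • s 1 + X i 2 • s 2 = ξ * cr c t i := by
  have h1 : ∀ i, ∃ x : Fin 3 → F, x 0 • s 0 + x 1 • s 1 + x 2 • s 2 = ξ * cr c t i := by
    intro i
    obtain ⟨x, hx⟩ := (Submodule.mem_span_range_iff_exists_fun F).1 (h i)
    exact ⟨x, by rw [← hx, Fin.sum_univ_three]⟩
  choose X hX using h1
  have hv : Matrix.vecMul c X = 0 := by
    have h2 : (c 0 * X 0 0 + c 1 * X 1 0 + c 2 * X 2 0) • s 0 +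
        (c 0 * X 0 1 + c 1 * X 1 1 + c 2 * X 2 1) • s 1 +
        (c 0 * X 0 2 + c 1 * X 1 2 + c 2 * X 2 2) • s 2 = 0 := by
      have e0 := hX 0
      have e1 := hX 1
      have e2 := hX 2
      change _ = ξ * (c 1 • t 2 - c 2 • t 1) at e0
      change _ = ξ * (c 2 • t 0 - c 0 • t 2) at e1
      change _ = ξ * (c 0 • t 1 - c 1 • t 0) at e2
      simp only [Algebra.smul_def, map_add, map_mul] at e0 e1 e2 ⊢
      linear_combination (algebraMap F K (c 0)) * e0 + (algebraMap F K (c 1)) * e1 +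
        (algebraMap F K (c 2)) * e2
    obtain ⟨g0, g1, g2⟩ := indep3 hs h2
    funext j
    simp only [Matrix.vecMul, dotProduct, Fin.sum_univ_three, Pi.zero_apply]
    fin_cases j
    · exact g0
    · exact g1
    · exact g2
  refine ⟨X, ⟨?_, ?_, ?_⟩, hv, hX⟩
  · rw [mem_NN, hX, hX, hX]
    change t 0 * (ξ * (c 1 • t 2 - c 2 • t 1)) + t 1 * (ξ * (c 2 • t 0 - c 0 • t 2)) +
      t 2 * (ξ * (c 0 • t 1 - c 1 • t 0)) = 0
    simp only [Algebra.smul_def]
    ring
  · intro h0
    apply cr_ne ht hc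
    funext i
    have := hX i
    rw [h0] at this
    simp only [Matrix.zero_apply, zero_smul, add_zero] at this
    exact (mul_eq_zero.1 this.symm).resolve_left hξ
  · exact (Matrix.exists_vecMul_eq_zero_iff).1 ⟨c, hc, hv⟩

/-- the incidences -/
private lemma card_inc [Finite F] {t s : Fin 3 → K} (ht : LinearIndependent F t)
    (hs : LinearIndependent F s) :
    Nat.card (Σ X : {X : Matrix (Fin 3) (Fin 3) F // X ∈ NN F t s ∧ X ≠ 0 ∧ X.det = 0},
      {c : Fin 3 → F // c ≠ 0 ∧ Matrix.vecMul c X.1 = 0}) =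
    Nat.card (Σ ξ : {ξ : K // ξ ≠ 0},
      {c : Fin 3 → F // c ≠ 0 ∧ c ∈ Cx t (Submodule.span F (Set.range s)) ξ.1}) := by
  have hex : ∀ z : (Σ X : {X : Matrix (Fin 3) (Fin 3) F // X ∈ NN F t s ∧ X ≠ 0 ∧ X.det = 0},
      {c : Fin 3 → F // c ≠ 0 ∧ Matrix.vecMul c X.1 = 0}),
      ∃ ξ : K, ξ ≠ 0 ∧ ∀ i, z.1.1 i 0 • s 0 + z.1.1 i 1 • s 1 + z.1.1 i 2 • s 2 =
        ξ * cr z.2.1 t i := by
    rintro ⟨⟨X, hX, hX0, hd⟩, ⟨c, hc, hcX⟩⟩
    exact exists_xi ht hs hX hX0 hc hcX
  choose ξ hξ0 hξ using hex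
  have hS : ∀ z, z.2.1 ∈ Cx t (Submodule.span F (Set.range s)) (ξ z) := by
    intro z i
    rw [← hξ z i]
    exact Submodule.add_mem _ (Submodule.add_mem _
      (Submodule.smul_mem _ _ (Submodule.subset_span ⟨0, rfl⟩))
      (Submodule.smul_mem _ _ (Submodule.subset_span ⟨1, rfl⟩)))
      (Submodule.smul_mem _ _ (Submodule.subset_span ⟨2, rfl⟩))
  apply Nat.card_eq_of_bijective
    (f := fun z => ⟨⟨ξ z, hξ0 z⟩, ⟨z.2.1, z.2.2.1, hS z⟩⟩)
  constructor
  · intro z w hzw
    have h1 : ξ z = ξ w := congrArg (fun y => y.1.1) hzw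
    have h2 : z.2.1 = w.2.1 := congrArg (fun y => y.2.1) hzw
    have h3 : z.1.1 = w.1.1 := by
      funext i j
      have e : (z.1.1 i 0 - w.1.1 i 0) • s 0 + (z.1.1 i 1 - w.1.1 i 1) • s 1 +
          (z.1.1 i 2 - w.1.1 i 2) • s 2 = 0 := by
        have e1 := hξ z i
        have e2 := hξ w i
        rw [h1, h2] at e1
        simp only [Algebra.smul_def, map_sub] at e1 e2 ⊢
        linear_combination e1 - e2
      obtain ⟨g0, g1, g2⟩ := indep3 hs e
      fin_cases j
      · exact sub_eq_zero.1 g0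
      · exact sub_eq_zero.1 g1
      · exact sub_eq_zero.1 g2
    obtain ⟨⟨X, hX⟩, ⟨c, hc⟩⟩ := z
    obtain ⟨⟨Y, hY⟩, ⟨d, hd⟩⟩ := w
    change c = d at h2
    change X = Y at h3
    subst h2
    subst h3
    rfl
  · rintro ⟨⟨x, hx⟩, ⟨c, hc, hcx⟩⟩
    obtain ⟨X, hX, hcX, hXx⟩ := exists_X ht hs hx hc hcx
    refine ⟨⟨⟨X, hX⟩, ⟨c, hc, hcX⟩⟩, ?_⟩
    have h1 : ξ ⟨⟨X, hX⟩, ⟨c, hc, hcX⟩⟩ = x := by
      obtain ⟨i, hi⟩ := Function.ne_iff.1 (cr_ne ht hc)
      have e1 := hξ ⟨⟨X, hX⟩, ⟨c, hc, hcX⟩⟩ i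
      have e2 := hXx i
      change _ = _ * cr c t i at e1
      have e3 : ξ ⟨⟨X, hX⟩, ⟨c, hc, hcX⟩⟩ * cr c t i = x * cr c t i := e1.symm.trans e2
      exact mul_right_cancel₀ hi e3
    subst h1
    rfl

theorem card_sing [Finite F] [FiniteDimensional F K] {t s : Fin 3 → K}
    (ht : LinearIndependent F t) (hs : LinearIndependent F s) :
    sing (NN F t s) = inn (Submodule.span F (Set.range s)) (Submodule.span F (Set.range t)) 2 +
      (Nat.card F ^ 2 + Nat.card F + 1) *
        inn (Submodule.span F (Set.range s)) (Submodule.span F (Set.range t)) 3 := by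
  classical
  have : Finite K := Module.finite_of_finite F
  have : Fintype K := Fintype.ofFinite K
  have : Fintype F := Fintype.ofFinite F
  have hinc := card_inc ht hs
  have hq : 1 < Nat.card F := Finite.one_lt_card
  have hL : Nat.card (Σ X : {X : Matrix (Fin 3) (Fin 3) F // X ∈ NN F t s ∧ X ≠ 0 ∧ X.det = 0},
      {c : Fin 3 → F // c ≠ 0 ∧ Matrix.vecMul c X.1 = 0}) =
      (Nat.card F - 1) * sing (NN F t s) := by
    rw [Nat.card_sigma]
    rw [Finset.sum_congr rfl (fun X _ => card_left ht hs X.2.1 X.2.2.1 X.2.2.2)]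
    rw [Finset.sum_const, smul_eq_mul, Finset.card_univ, ← Nat.card_eq_fintype_card, mul_comm]
    rfl
  have hR : Nat.card (Σ ξ : {ξ : K // ξ ≠ 0},
      {c : Fin 3 → F // c ≠ 0 ∧ c ∈ Cx t (Submodule.span F (Set.range s)) ξ.1}) =
      (Nat.card F - 1) * inn (Submodule.span F (Set.range s)) (Submodule.span F (Set.range t)) 2 +
      (Nat.card F ^ 3 - 1) *
        inn (Submodule.span F (Set.range s)) (Submodule.span F (Set.range t)) 3 := by
    rw [Nat.card_sigma]
    have h1 : ∀ ξ : {ξ : K // ξ ≠ 0},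
        Nat.card {c : Fin 3 → F // c ≠ 0 ∧ c ∈ Cx t (Submodule.span F (Set.range s)) ξ.1} =
        (if finrank F ↥(Submodule.span F (Set.range s) ⊓
          sc ξ.1 (Submodule.span F (Set.range t))) = 2 then Nat.card F - 1 else 0) +
        (if finrank F ↥(Submodule.span F (Set.range s) ⊓
          sc ξ.1 (Submodule.span F (Set.range t))) = 3 then Nat.card F ^ 3 - 1 else 0) := by
      intro ξ
      rw [card_nonzero, finrank_Cx ht _ ξ.2]
      split_ifs with h2 h3 h3
      · omega
      · simp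
      · simp
      · simp
    rw [Finset.sum_congr rfl (fun ξ _ => h1 ξ), Finset.sum_add_distrib]
    have h2 : ∀ (k m : ℕ), (∑ ξ : {ξ : K // ξ ≠ 0},
        (if finrank F ↥(Submodule.span F (Set.range s) ⊓
          sc ξ.1 (Submodule.span F (Set.range t))) = k then m else 0)) =
        m * inn (Submodule.span F (Set.range s)) (Submodule.span F (Set.range t)) k := by
      intro k m
      rw [← Finset.sum_filter, Finset.sum_const, smul_eq_mul, mul_comm]
      congr 1
      rw [inn, ← Fintype.card_subtype, ← Nat.card_eq_fintype_card]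
      exact Nat.card_congr (Equiv.subtypeSubtypeEquivSubtypeInter _
        (fun ξ : K => finrank F ↥(Submodule.span F (Set.range s) ⊓
          sc ξ (Submodule.span F (Set.range t))) = k))
    rw [h2, h2]
  rw [hL, hR] at hinc
  obtain ⟨m, hm⟩ : ∃ m, Nat.card F = m + 2 := ⟨Nat.card F - 2, by omega⟩
  have hcube : Nat.card F ^ 3 - 1 = (Nat.card F - 1) * (Nat.card F ^ 2 + Nat.card F + 1) := by
    rw [hm]
    have e1 : (m + 2) ^ 3 = (m + 1) * ((m + 2) ^ 2 + (m + 2) + 1) + 1 := by ring
    rw [e1]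
    simp
  rw [hcube, mul_assoc, ← mul_add] at hinc
  exact Nat.eq_of_mul_eq_mul_left (by omega) hinc

end Pool.Agent.Helper74.CW
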